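import Pool.Agent.Lib.MP_6bc78b_nt.SW.Iface

/-! Module PSJ of board sw_modules: partial summation for the tail of a Dirichlet series. -/

set_option autoImplicit false

open Complex Finset DirichletCharacter

namespace Pool.Agent.Lib.MP_6bc78b_nt.SW

namespace PSJ

/-- `(1 + log r)^j ≤ 2^j j! e^(1/2) r^(1/2)`. -/
lemma one_add_log_pow (j : ℕ) (r : ℝ) (hr : 1 ≤ r) :
    (1 + Real.log r) ^ j ≤ 2 ^ j * j.factorial * Real.exp (1 / 2) * Real.sqrt r := by
  have h0 : 0 ≤ Real.log r := Real.log_nonneg hr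
  have h1 : ((1 + Real.log r) / 2) ^ j / j.factorial ≤ Real.exp ((1 + Real.log r) / 2) :=
    Real.pow_div_factorial_le_exp _ (by positivity) j
  have hf : (0 : ℝ) < j.factorial := by exact_mod_cast Nat.factorial_pos j
  have h2 : Real.exp ((1 + Real.log r) / 2) = Real.exp (1 / 2) * Real.sqrt r := by
    rw [show (1 + Real.log r) / 2 = 1 / 2 + Real.log r / 2 by ring, Real.exp_add]
    congr 1
    have : Real.exp (Real.log r / 2) ^ 2 = r := by
      rw [← Real.exp_nat_mul]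
      rw [show ((2 : ℕ) : ℝ) * (Real.log r / 2) = Real.log r by push_cast; ring]
      exact Real.exp_log (by linarith)
    rw [← this, Real.sqrt_sq (Real.exp_pos _).le]
    rw [this]
  rw [h2, div_le_iff₀ hf, div_pow, div_le_iff₀ (by positivity)] at h1
  nlinarith [h1]

/-- `(log n)^j ≤ C_j (log N)^j (n/N)^(1/2)`. -/
lemma log_pow_le (j : ℕ) (x y : ℝ) (hx : 3 ≤ x) (hxy : x ≤ y) :
    Real.log y ^ j ≤ 2 ^ j * j.factorial * Real.exp (1 / 2) * Real.log x ^ j *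
      (Real.sqrt y / Real.sqrt x) := by
  have hlx : 1 ≤ Real.log x := by
    rw [Real.le_log_iff_exp_le (by linarith)]
    have := Real.exp_one_lt_d9
    linarith
  have hr : 1 ≤ y / x := by rw [le_div_iff₀ (by linarith)]; linarith
  have h0 : 0 ≤ Real.log (y / x) := Real.log_nonneg hr
  have h1 : Real.log y = Real.log x + Real.log (y / x) := by
    rw [Real.log_div (by linarith) (by linarith)]; ring
  have h2 : Real.log y ≤ Real.log x * (1 + Real.log (y / x)) := by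
    rw [h1]; nlinarith
  have h3 : Real.log y ^ j ≤ (Real.log x * (1 + Real.log (y / x))) ^ j :=
    pow_le_pow_left₀ (Real.log_nonneg (by linarith)) h2 j
  rw [mul_pow] at h3
  have h4 := one_add_log_pow j (y / x) hr
  rw [Real.sqrt_div (by linarith)] at h4
  have h5 : 0 ≤ Real.log x ^ j := by positivity
  calc Real.log y ^ j ≤ Real.log x ^ j * (1 + Real.log (y / x)) ^ j := h3
    _ ≤ Real.log x ^ j * (2 ^ j * j.factorial * Real.exp (1 / 2) * (Real.sqrt y / Real.sqrt x)) :=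
        mul_le_mul_of_nonneg_left h4 h5
    _ = _ := by ring

/-- the function `(log u)^j u^(-s)`. -/
noncomputable def ff (j : ℕ) (s : ℂ) (u : ℝ) : ℂ := ((Real.log u ^ j : ℝ) : ℂ) * (u : ℂ) ^ (-s)

lemma hasDerivAt_ff (j : ℕ) (s : ℂ) (u : ℝ) (hu : 0 < u) :
    HasDerivAt (ff j s)
      ((((j : ℝ) * Real.log u ^ (j - 1) * u⁻¹ : ℝ) : ℂ) * (u : ℂ) ^ (-s) +
        ((Real.log u ^ j : ℝ) : ℂ) * ((-s) * (u : ℂ) ^ (-s - 1))) u := by
  have h1 : HasDerivAt (fun u : ℝ => Real.log u ^ j) ((j : ℝ) * Real.log u ^ (j - 1) * u⁻¹) u := by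
    have := (Real.hasDerivAt_log hu.ne').fun_pow j
    simpa using this
  have h2 : HasDerivAt (fun u : ℝ => (u : ℂ) ^ (-s)) ((-s) * (u : ℂ) ^ (-s - 1)) u := by
    have h3 : HasDerivAt (fun z : ℂ => z ^ (-s)) ((-s) * (u : ℂ) ^ (-s - 1)) (u : ℂ) := by
      simpa using (hasDerivAt_id (u : ℂ)).cpow_const (c := -s)
        (by left; simpa using hu)
    exact h3.comp_ofReal
  exact h1.ofReal_comp.mul h2

lemma norm_cpow (u : ℝ) (hu : 0 < u) (σ t : ℝ) :
    ‖(u : ℂ) ^ (-(σ + t * I : ℂ))‖ = u ^ (-σ) := by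
  rw [Complex.norm_cpow_eq_rpow_re_of_pos hu]
  simp

lemma norm_ff_le (j : ℕ) (σ t : ℝ) (hσ : 1 < σ) (u : ℝ) (hu : 1 ≤ u) :
    ‖ff j (σ + t * I) u‖ ≤ Real.log u ^ j / u := by
  have hl : 0 ≤ Real.log u := Real.log_nonneg hu
  unfold ff
  rw [norm_mul, norm_cpow u (by linarith), Complex.norm_real, Real.norm_of_nonneg (by positivity),
    div_eq_mul_inv]
  apply mul_le_mul_of_nonneg_left _ (by positivity)
  rw [← Real.rpow_neg_one]
  exact Real.rpow_le_rpow_of_exponent_le hu (by linarith)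

lemma norm_s_le (σ t : ℝ) (hσ : 1 < σ) (hσ2 : σ ≤ 2) : ‖(σ + t * I : ℂ)‖ ≤ |t| + 2 := by
  calc ‖(σ + t * I : ℂ)‖ ≤ ‖(σ : ℂ)‖ + ‖(t * I : ℂ)‖ := norm_add_le _ _
    _ = |σ| + |t| := by simp
    _ ≤ |t| + 2 := by rw [abs_of_pos (by linarith)]; linarith

lemma norm_deriv_le (j : ℕ) (σ t : ℝ) (hσ : 1 < σ) (hσ2 : σ ≤ 2) (x u : ℝ) (hx : 3 ≤ x)
    (hu : x ≤ u) (hu2 : u ≤ x + 1) :
    ‖(((j : ℝ) * Real.log u ^ (j - 1) * u⁻¹ : ℝ) : ℂ) * (u : ℂ) ^ (-(σ + t * I : ℂ)) +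
        ((Real.log u ^ j : ℝ) : ℂ) * ((-(σ + t * I : ℂ)) * (u : ℂ) ^ (-(σ + t * I : ℂ) - 1))‖ ≤
      (j + (|t| + 2)) * (Real.log (x + 1) ^ j / x ^ 2) := by
  have hu0 : 0 < u := by linarith
  have hlu : 1 ≤ Real.log u := by
    rw [Real.le_log_iff_exp_le (by linarith)]
    have := Real.exp_one_lt_d9
    linarith
  have hl2 : Real.log u ≤ Real.log (x + 1) := Real.log_le_log hu0 hu2
  have hp1 : u ^ (-σ) ≤ u⁻¹ := by
    rw [← Real.rpow_neg_one]
    exact Real.rpow_le_rpow_of_exponent_le (by linarith) (by linarith)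
  have hp2 : ‖(u : ℂ) ^ (-(σ + t * I : ℂ) - 1)‖ = u ^ (-σ - 1) := by
    rw [Complex.norm_cpow_eq_rpow_re_of_pos hu0]
    simp
  have hp3 : u ^ (-σ - 1) ≤ u⁻¹ * u⁻¹ := by
    rw [show -σ - 1 = -σ + (-1) by ring, Real.rpow_add hu0, Real.rpow_neg_one]
    exact mul_le_mul_of_nonneg_right hp1 (by positivity)
  have hinv : u⁻¹ ≤ x⁻¹ := inv_anti₀ (by linarith) hu
  have hinv2 : u⁻¹ * u⁻¹ ≤ 1 / x ^ 2 := by
    calc u⁻¹ * u⁻¹ ≤ x⁻¹ * x⁻¹ := mul_le_mul hinv hinv (by positivity) (by positivity)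
      _ = 1 / x ^ 2 := by rw [one_div, sq, mul_inv]
  have hj1 : Real.log u ^ (j - 1) ≤ Real.log (x + 1) ^ j :=
    (pow_le_pow_right₀ hlu (Nat.sub_le j 1)).trans (pow_le_pow_left₀ (by linarith) hl2 j)
  have hj2 : Real.log u ^ j ≤ Real.log (x + 1) ^ j := pow_le_pow_left₀ (by linarith) hl2 j
  have hL : 0 ≤ Real.log (x + 1) ^ j := by
    have : 0 ≤ Real.log (x + 1) := by linarith
    positivity
  have hlu0 : 0 ≤ Real.log u := by linarith
  refine (norm_add_le _ _).trans ?_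
  rw [norm_mul, norm_mul, norm_mul, norm_neg, norm_cpow u hu0, hp2, Complex.norm_real,
    Complex.norm_real, Real.norm_of_nonneg (by positivity), Real.norm_of_nonneg (by positivity)]
  have hs := norm_s_le σ t hσ hσ2
  have h1 : (j : ℝ) * Real.log u ^ (j - 1) * u⁻¹ * u ^ (-σ) ≤
      j * (Real.log (x + 1) ^ j / x ^ 2) := by
    calc (j : ℝ) * Real.log u ^ (j - 1) * u⁻¹ * u ^ (-σ)
        ≤ (j : ℝ) * Real.log u ^ (j - 1) * u⁻¹ * u⁻¹ :=
          mul_le_mul_of_nonneg_left hp1 (by positivity)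
      _ = j * (Real.log u ^ (j - 1) * (u⁻¹ * u⁻¹)) := by ring
      _ ≤ j * (Real.log (x + 1) ^ j * (1 / x ^ 2)) := by
          apply mul_le_mul_of_nonneg_left _ (Nat.cast_nonneg j)
          exact mul_le_mul hj1 hinv2 (by positivity) hL
      _ = _ := by ring
  have h2 : Real.log u ^ j * (‖(σ + t * I : ℂ)‖ * u ^ (-σ - 1)) ≤
      (|t| + 2) * (Real.log (x + 1) ^ j / x ^ 2) := by
    calc Real.log u ^ j * (‖(σ + t * I : ℂ)‖ * u ^ (-σ - 1))
        ≤ Real.log (x + 1) ^ j * ((|t| + 2) * (1 / x ^ 2)) := by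
          apply mul_le_mul hj2 _ (by positivity) hL
          exact mul_le_mul hs (hp3.trans hinv2) (by positivity) (by positivity)
      _ = _ := by ring
  linarith [h1, h2]

lemma ff_sub_le (j : ℕ) (σ t : ℝ) (hσ : 1 < σ) (hσ2 : σ ≤ 2) (x : ℝ) (hx : 3 ≤ x) :
    ‖ff j (σ + t * I) x - ff j (σ + t * I) (x + 1)‖ ≤
      (j + (|t| + 2)) * (Real.log (x + 1) ^ j / x ^ 2) := by
  rw [norm_sub_rev]
  have h := (convex_Icc x (x + 1)).norm_image_sub_le_of_norm_hasDerivWithin_le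
    (f := ff j (σ + t * I))
    (f' := fun u : ℝ => (((j : ℝ) * Real.log u ^ (j - 1) * u⁻¹ : ℝ) : ℂ) *
      (u : ℂ) ^ (-(σ + t * I : ℂ)) +
        ((Real.log u ^ j : ℝ) : ℂ) * ((-(σ + t * I : ℂ)) * (u : ℂ) ^ (-(σ + t * I : ℂ) - 1)))
    (C := (j + (|t| + 2)) * (Real.log (x + 1) ^ j / x ^ 2))
    (fun u hu => (hasDerivAt_ff j _ u (by linarith [hu.1])).hasDerivWithinAt)
    (fun u hu => norm_deriv_le j σ t hσ hσ2 x u hx hu.1 hu.2)
    (x := x) (y := x + 1) ⟨le_rfl, by linarith⟩ ⟨by linarith, le_rfl⟩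
  simpa using h

/-- telescoping bound for `sqrt(n+1)/n^2`. -/
lemma sqrt_div_le (x : ℝ) (hx : 1 ≤ x) :
    Real.sqrt (x + 1) / x ^ 2 ≤ 6 * (1 / Real.sqrt x - 1 / Real.sqrt (x + 1)) := by
  set a := Real.sqrt x with ha
  set b := Real.sqrt (x + 1) with hb
  have ha0 : 0 < a := Real.sqrt_pos.mpr (by linarith)
  have hb0 : 0 < b := Real.sqrt_pos.mpr (by linarith)
  have ha2 : a ^ 2 = x := Real.sq_sqrt (by linarith)
  have hb2 : b ^ 2 = x + 1 := Real.sq_sqrt (by linarith)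
  have hab : a ≤ b := Real.sqrt_le_sqrt (by linarith)
  have hb2a : b ≤ 2 * a := by
    nlinarith
  have hx2 : x ^ 2 = a ^ 4 := by rw [← ha2]; ring
  have h1 : 1 / a - 1 / b = 1 / (a * b * (a + b)) := by
    have : b ^ 2 - a ^ 2 = 1 := by rw [ha2, hb2]; ring
    field_simp
    nlinarith
  rw [hx2, h1, mul_one_div, div_le_div_iff₀ (by positivity) (by positivity)]
  have h2 : b ^ 2 ≤ 2 * a ^ 2 := by rw [ha2, hb2]; linarith
  have h3 : b ^ 2 * (a + b) ≤ 2 * a ^ 2 * (3 * a) := by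
    apply mul_le_mul h2 (by linarith) (by positivity) (by positivity)
  calc b * (a * b * (a + b)) = a * (b ^ 2 * (a + b)) := by ring
    _ ≤ a * (2 * a ^ 2 * (3 * a)) := mul_le_mul_of_nonneg_left h3 ha0.le
    _ = 6 * a ^ 4 := by ring

end PSJ

open PSJ

theorem psj : PsjStatement := by
  intro j
  set c : ℝ := 2 ^ j * j.factorial * Real.exp (1 / 2) with hc
  have hc0 : 0 < c := by
    have : (0 : ℝ) < j.factorial := by exact_mod_cast Nat.factorial_pos j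
    positivity
  refine ⟨2 * c * (6 * j + 7), by positivity, ?_⟩
  intro a A hA ha σ t hσ hσ2 N M hN hNM
  set s : ℂ := σ + t * I with hs
  set S : ℕ → ℂ := fun n => ∑ k ∈ Icc 1 n, a k with hS
  have hN3 : (3 : ℝ) ≤ N := by exact_mod_cast hN
  have hN0 : (0 : ℝ) < N := by linarith
  have hlN : 1 ≤ Real.log N := by
    rw [Real.le_log_iff_exp_le (by linarith)]
    have := Real.exp_one_lt_d9
    linarith
  have hLN : 0 ≤ Real.log N ^ j := by positivity
  have hsN : 0 < Real.sqrt N := Real.sqrt_pos.mpr hN0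
  set K : ℝ := (j + (|t| + 2)) * (c * Real.log N ^ j / Real.sqrt N) * 6 with hK
  have hK0 : 0 ≤ K := by positivity
  -- the difference bound
  have hdiff : ∀ n : ℕ, N ≤ n → ‖ff j s n - ff j s ((n : ℝ) + 1)‖ ≤
      K * (1 / Real.sqrt n - 1 / Real.sqrt ((n : ℝ) + 1)) := by
    intro n hn
    have hnN : (N : ℝ) ≤ n := by exact_mod_cast hn
    have h1 := ff_sub_le j σ t hσ hσ2 (n : ℝ) (by linarith)
    have h2 := log_pow_le j (N : ℝ) ((n : ℝ) + 1) hN3 (by linarith)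
    have h3 := sqrt_div_le (n : ℝ) (by linarith)
    have hn0 : (0 : ℝ) < n := by linarith
    calc ‖ff j s n - ff j s ((n : ℝ) + 1)‖
        ≤ (j + (|t| + 2)) * (Real.log ((n : ℝ) + 1) ^ j / (n : ℝ) ^ 2) := h1
      _ ≤ (j + (|t| + 2)) * ((c * Real.log N ^ j * (Real.sqrt ((n : ℝ) + 1) / Real.sqrt N)) /
            (n : ℝ) ^ 2) := by
          apply mul_le_mul_of_nonneg_left _ (by positivity)
          exact div_le_div_of_nonneg_right h2 (by positivity)
      _ = (j + (|t| + 2)) * (c * Real.log N ^ j / Real.sqrt N) *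
            (Real.sqrt ((n : ℝ) + 1) / (n : ℝ) ^ 2) := by
          field_simp
      _ ≤ (j + (|t| + 2)) * (c * Real.log N ^ j / Real.sqrt N) *
            (6 * (1 / Real.sqrt n - 1 / Real.sqrt ((n : ℝ) + 1))) :=
          mul_le_mul_of_nonneg_left h3 (by positivity)
      _ = K * (1 / Real.sqrt n - 1 / Real.sqrt ((n : ℝ) + 1)) := by rw [hK]; ring
  -- summation by parts
  have hS2 : ∀ n : ℕ, ‖S n - S N‖ ≤ 2 * A := by
    intro n
    calc ‖S n - S N‖ ≤ ‖S n‖ + ‖S N‖ := norm_sub_le _ _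
      _ ≤ A + A := add_le_add (ha n) (ha N)
      _ = 2 * A := by ring
  have hD : ∀ m : ℕ, ‖(∑ n ∈ Ioc N (N + m), a n * ff j s n) -
      (S (N + m) - S N) * ff j s ((N + m : ℕ) : ℝ)‖ ≤
      2 * A * K * (1 / Real.sqrt N - 1 / Real.sqrt ((N + m : ℕ) : ℝ)) := by
    intro m
    induction m with
    | zero => simp
    | succ m ih =>
      have e1 : ∑ n ∈ Ioc N (N + (m + 1)), a n * ff j s n =
          (∑ n ∈ Ioc N (N + m), a n * ff j s n) +
            a (N + m + 1) * ff j s ((N + m + 1 : ℕ) : ℝ) := by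
        rw [← add_assoc, Finset.sum_Ioc_succ_top (by omega)]
      have e2 : S (N + (m + 1)) = S (N + m) + a (N + m + 1) := by
        simp only [hS]
        rw [← add_assoc, Finset.sum_Icc_succ_top (by omega)]
      have e3 : ((N + (m + 1) : ℕ) : ℝ) = ((N + m : ℕ) : ℝ) + 1 := by push_cast; ring
      have e4 : ((N + m + 1 : ℕ) : ℝ) = ((N + m : ℕ) : ℝ) + 1 := by push_cast; ring
      rw [e1, e2, e3, e4]
      have e5 : (∑ n ∈ Ioc N (N + m), a n * ff j s n) + a (N + m + 1) *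
            ff j s (((N + m : ℕ) : ℝ) + 1) -
          (S (N + m) + a (N + m + 1) - S N) * ff j s (((N + m : ℕ) : ℝ) + 1) =
          ((∑ n ∈ Ioc N (N + m), a n * ff j s n) - (S (N + m) - S N) * ff j s ((N + m : ℕ) : ℝ)) +
          (S (N + m) - S N) * (ff j s ((N + m : ℕ) : ℝ) - ff j s (((N + m : ℕ) : ℝ) + 1)) := by
        ring
      rw [e5]
      refine (norm_add_le _ _).trans ?_
      rw [norm_mul]
      have h6 := hdiff (N + m) (by omega)
      have h7 : ‖S (N + m) - S N‖ * ‖ff j s ((N + m : ℕ) : ℝ) - ff j s (((N + m : ℕ) : ℝ) + 1)‖ ≤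
          2 * A * (K * (1 / Real.sqrt ((N + m : ℕ) : ℝ) -
            1 / Real.sqrt (((N + m : ℕ) : ℝ) + 1))) :=
        mul_le_mul (hS2 _) h6 (norm_nonneg _) (by positivity)
      calc _ ≤ 2 * A * K * (1 / Real.sqrt N - 1 / Real.sqrt ((N + m : ℕ) : ℝ)) +
          2 * A * (K * (1 / Real.sqrt ((N + m : ℕ) : ℝ) -
            1 / Real.sqrt (((N + m : ℕ) : ℝ) + 1))) := add_le_add ih h7
        _ = _ := by ring
  obtain ⟨m, rfl⟩ : ∃ m, M = N + m := ⟨M - N, by omega⟩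
  have hfin := hD m
  have hMN : (N : ℝ) ≤ ((N + m : ℕ) : ℝ) := by push_cast; linarith [Nat.cast_nonneg (α := ℝ) m]
  have hM0 : (0 : ℝ) < ((N + m : ℕ) : ℝ) := by linarith
  have hsM : 0 < Real.sqrt ((N + m : ℕ) : ℝ) := Real.sqrt_pos.mpr hM0
  have hsNM : Real.sqrt N ≤ Real.sqrt ((N + m : ℕ) : ℝ) := Real.sqrt_le_sqrt hMN
  have hfM : ‖ff j s ((N + m : ℕ) : ℝ)‖ ≤ c * Real.log N ^ j / N := by
    refine (norm_ff_le j σ t hσ _ (by linarith)).trans ?_
    have h2 := log_pow_le j (N : ℝ) ((N + m : ℕ) : ℝ) hN3 hMN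
    have hMM : Real.sqrt ((N + m : ℕ) : ℝ) * Real.sqrt ((N + m : ℕ) : ℝ) = ((N + m : ℕ) : ℝ) :=
      Real.mul_self_sqrt hM0.le
    have hNN : Real.sqrt (N : ℝ) * Real.sqrt (N : ℝ) = (N : ℝ) := Real.mul_self_sqrt hN0.le
    rw [div_le_div_iff₀ hM0 hN0]
    calc Real.log ((N + m : ℕ) : ℝ) ^ j * N
        ≤ (c * Real.log N ^ j * (Real.sqrt ((N + m : ℕ) : ℝ) / Real.sqrt N)) * N :=
          mul_le_mul_of_nonneg_right h2 hN0.le
      _ = c * Real.log N ^ j * (Real.sqrt ((N + m : ℕ) : ℝ) * (N / Real.sqrt N)) := by ring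
      _ = c * Real.log N ^ j * (Real.sqrt ((N + m : ℕ) : ℝ) * Real.sqrt N) := by
          congr 2
          rw [div_eq_iff hsN.ne']
          exact hNN.symm
      _ ≤ c * Real.log N ^ j * (Real.sqrt ((N + m : ℕ) : ℝ) * Real.sqrt ((N + m : ℕ) : ℝ)) := by
          apply mul_le_mul_of_nonneg_left _ (by positivity)
          exact mul_le_mul_of_nonneg_left hsNM hsM.le
      _ = _ := by rw [hMM]
  have hsum : ∑ n ∈ Ioc N (N + m), a n * ((Real.log n ^ j : ℝ) : ℂ) * (n : ℂ) ^ (-(σ + t * I : ℂ)) =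
      ∑ n ∈ Ioc N (N + m), a n * ff j s n := by
    apply sum_congr rfl
    intro n _
    simp only [ff, hs]
    push_cast
    ring
  rw [hsum]
  have htri : ‖∑ n ∈ Ioc N (N + m), a n * ff j s n‖ ≤
      2 * A * K * (1 / Real.sqrt N - 1 / Real.sqrt ((N + m : ℕ) : ℝ)) +
        2 * A * (c * Real.log N ^ j / N) := by
    calc ‖∑ n ∈ Ioc N (N + m), a n * ff j s n‖
        = ‖((∑ n ∈ Ioc N (N + m), a n * ff j s n) -
            (S (N + m) - S N) * ff j s ((N + m : ℕ) : ℝ)) +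
            (S (N + m) - S N) * ff j s ((N + m : ℕ) : ℝ)‖ := by congr 1; ring
      _ ≤ _ := norm_add_le _ _
      _ ≤ _ := by
          rw [norm_mul]
          exact add_le_add hfin (mul_le_mul (hS2 _) hfM (norm_nonneg _) (by positivity))
  refine htri.trans ?_
  have h8 : 2 * A * K * (1 / Real.sqrt N - 1 / Real.sqrt ((N + m : ℕ) : ℝ)) ≤
      2 * A * ((j + (|t| + 2)) * 6 * (c * Real.log N ^ j / N)) := by
    calc 2 * A * K * (1 / Real.sqrt N - 1 / Real.sqrt ((N + m : ℕ) : ℝ))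
        ≤ 2 * A * K * (1 / Real.sqrt N) := by
          apply mul_le_mul_of_nonneg_left _ (by positivity)
          have : 0 ≤ 1 / Real.sqrt ((N + m : ℕ) : ℝ) := by positivity
          linarith
      _ = 2 * A * ((j + (|t| + 2)) * 6 * (c * Real.log N ^ j / (Real.sqrt N * Real.sqrt N))) := by
          rw [hK]; field_simp
      _ = _ := by rw [Real.mul_self_sqrt hN0.le]
  have ht : 0 ≤ |t| := abs_nonneg t
  have hj : (0 : ℝ) ≤ j := Nat.cast_nonneg j
  have h9 : (j + (|t| + 2)) * 6 + 1 ≤ (6 * j + 7) * (|t| + 3) := by nlinarith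
  have hX : 0 ≤ 2 * A * (c * Real.log N ^ j / N) := by positivity
  calc _ ≤ 2 * A * ((j + (|t| + 2)) * 6 * (c * Real.log N ^ j / N)) +
        2 * A * (c * Real.log N ^ j / N) := by linarith [h8]
    _ = ((j + (|t| + 2)) * 6 + 1) * (2 * A * (c * Real.log N ^ j / N)) := by ring
    _ ≤ ((6 * j + 7) * (|t| + 3)) * (2 * A * (c * Real.log N ^ j / N)) :=
        mul_le_mul_of_nonneg_right h9 hX
    _ = _ := by ring

end Pool.Agent.Lib.MP_6bc78b_nt.SW
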